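import Pool.Agent.T2h61.RF.Fin
import Pool.Agent.T2h61.RF.T_GEF

/-!
# `GL_2` of free algebras, and groups of units acting on trees

`C` is any class of groups with the closure properties `ClosedE C`: it contains the infinite cyclic
group, it is closed under subgroups, finite products, free products, overgroups of finite index and
colimits of directed systems, and it contains `G` if there is a surjection from `G` to a group `Q` in `C`
such that the preimages of all virtually cyclic subgroups of `Q` are in `C`. All this is known for the
class of the groups whose wreath products with finite groups satisfy the K- and L-theoretic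
Farrell–Jones conjecture with coefficients; this class also contains the solvable groups (Wegner) and
the groups `GL_n(k)` for fields `k` algebraic over `ℚ` or over `𝔽_p(t)` (Rüping). Let `k` be a field such
that all `GL_n(k)` are in `C`.

* (1) Let `A` be an associative `k`-algebra which is residually finite-dimensional, `H` a group acting on
  a tree with vertex stabilizers in `C`, and `ρ : H → Aˣ` a homomorphism such that for each edge the
  images of the elements which fix both ends of the edge lie in a finite-dimensional subspace of `A`, and
  `ρ` is injective on these elements. Then `H` is in `C`.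
* (2) Let `C` contain the metabelian groups. Let `R` be a residually finite-dimensional `k`-algebra
  without zero divisors, not necessarily commutative, with a degree function: `d(0) = 0`,
  `d(a + b) ≤ max (d a, d b)`, `d(ab) = d(a) + d(b)` for `a, b ≠ 0`, such that the elements of degree zero
  lie in a finite-dimensional subspace. Then `GE_2(R)`, the group generated by the invertible triangular
  matrices, is in `C`.
* (3) Let `C` contain the metabelian groups. Then `GL_2(k⟨X⟩)` is in `C` for every set `X`, where `k⟨X⟩`
  is the free associative algebra.

Outline of the proof. (1) follows from the theorem on groups acting on trees with one homomorphism for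
each edge (`N509.TK.edges`): a finite-dimensional subspace of `A` is mapped injectively by some
finite-dimensional representation of `A`, which gives a homomorphism from `H` to some `GL_m(k)`. (2) The
elements of degree zero form a division algebra `D`. The cosets of `GL_2(D)` and of the group of the
invertible upper triangular matrices in `GE_2(R)` are the vertices of a tree: the function
`2 max d(g_ij)` on the first cosets and `2 max (d(g_11), d(g_21)) + 1` on the others is such that every
vertex has at most one lower neighbour. The stabilizers of the edges are contained in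
`g M_2(D) g⁻¹`. (3) The free algebra is residually finite-dimensional, and by the weak algorithm of Cohn
`GL_2(k⟨X⟩)` is generated by triangular matrices.
-/

set_option autoImplicit false

namespace Pool.Agent.Results.MP_9d1ffa_al.FreeAlgebrasAndUnitGroups

open Matrix
open Pool.Agent.Y110.FJ (ClosedE)
open Pool.Agent.T2h61.RF

theorem result (C : ∀ (G : Type) [Group G], Prop) (hC : ClosedE C) (k : Type) [Field k]
    (hk : ∀ n, C (GL (Fin n) k)) :
    (∀ (A : Type) [Ring A] [Algebra k A],
      (∀ a : A, a ≠ 0 → ∃ (m : ℕ) (φ : A →ₐ[k] Matrix (Fin m) (Fin m) k), φ a ≠ 0) →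
      ∀ (H V : Type) [Group H] [MulAction H V] (T : SimpleGraph V), T.IsTree →
      (∀ (h : H) (u v : V), T.Adj u v → T.Adj (h • u) (h • v)) →
      (∀ v : V, C ↥(MulAction.stabilizer H v)) →
      ∀ ρ : H →* Aˣ, (∀ u v : V, T.Adj u v → ∃ W : Submodule k A, FiniteDimensional k W ∧
        ∀ h : H, h • u = u → h • v = v → (ρ h : A) ∈ W ∧ (ρ h = 1 → h = 1)) → C H) ∧
    ((∀ (G : Type) [Group G], derivedSeries G 2 = ⊥ → C G) →
      (∀ (R : Type) [Ring R] [IsDomain R] [Algebra k R],
        (∀ a : R, a ≠ 0 → ∃ (m : ℕ) (φ : R →ₐ[k] Matrix (Fin m) (Fin m) k), φ a ≠ 0) →
        ∀ d : R → ℕ, Dg R d →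
        (∃ D : Submodule k R, FiniteDimensional k D ∧ ∀ a, d a = 0 → a ∈ D) → C (GE R)) ∧
      ∀ X : Type, C (Matrix (Fin 2) (Fin 2) (FreeAlgebra k X))ˣ) := by
  refine ⟨fun A _ _ hA H V _ _ T hT hact hV ρ hE =>
    UNI.t_UNI C hC k A (RFC.t_RFC k A hA) hk H V T hT hact hV ρ hE, fun hM =>
    ⟨fun R _ _ _ hR d hd hD => ge hC hM k R hk (RFC.t_RFC k R hR) d hd hD, fun X => ?_⟩⟩
  have h1 := free hC hM k X hk
  rw [GEF.t_GEF] at h1
  exact Pool.Agent.R941.FJ.C_equiv hC.base Subgroup.topEquiv.symm h1

end Pool.Agent.Results.MP_9d1ffa_al.FreeAlgebrasAndUnitGroups
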