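import Pool.Agent.T2h61.GT.Mv
import Pool.Agent.T2h61.GT.Ab

/-!
# Linear groups of degree two over polynomial rings and graded domains

`C` is any class of groups with the closure properties `ClosedE C`: it contains the infinite cyclic
group, it is closed under subgroups, finite products, free products, overgroups of finite index and
colimits of directed systems, and it contains `G` if there is a surjection from `G` to a group `Q` in `C`
such that the preimages of all virtually cyclic subgroups of `Q` are in `C`. All this is known for the
class of the groups whose wreath products with finite groups satisfy the K- and L-theoretic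
Farrell–Jones conjecture with coefficients; this class also contains the virtually solvable groups
(Wegner) and the groups `GL_n(k)` for fields `k` algebraic over `ℚ` or over `𝔽_p(t)` (Rüping).

* (1) If `R` is an integral domain and `GL_2(R)` is in `C`, then `GL_2(R[X])` is in `C` for every set `X`
  of variables.
* (2) Let `C` contain the metabelian groups. If `A` is a commutative domain graded by the nonnegative
  integers such that `GL_2(A_0)` is in `C`, then `GL_2(A)` is in `C`.
* (3) Both follow from a criterion of *bounded detection*: let `K` be a field with a discrete valuation
  `v` and `ρ : H → GL_2(K)` a homomorphism such that the determinants of all `ρ(h)` have the value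
  `1`. If for each bound `n` there is a homomorphism from `H` to a group in `C` which does not kill any
  `h ≠ 1` such that the values of the entries of `ρ(h)` are at most `exp n`, then `H` is in `C`.

So the Farrell–Jones conjecture holds for `GL_2(ℤ[x_1, …, x_n])` and for all subgroups of
`GL_2(k[x_1, …, x_n])`, `k` algebraic over `ℚ` or `𝔽_p(t)`.

Outline of the proof. `H` acts on the tree of `GL_2(K)`: its vertices are the cosets of the group of
the multiples of the integral invertible matrices (`GT.Tree2`; every vertex has exactly one neighbour
which is nearer to the fixed end `∞`). The stabilizers of the vertices are bounded subsets of `H`, since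
the determinants are units, so each of them is detected by a homomorphism to a group in `C`, which is
all that is needed for the theorem `N509.TK.edges` on groups acting on trees with one homomorphism for
each edge. For (1) take the degree valuation of the field of rational functions over the field of
fractions of `R`; matrices of bounded degree are detected by their values at sufficiently many points
of `R` (or by reduction modulo a power of `x` if `R` is finite). For (2) the homomorphism
`a ↦ ∑ a_i t^i` from `A` to `A[t]` gives the valuation, and the bounded subsets are detected by the
reductions modulo the ideals `A_(m+1) + A_(m+2) + ...`, whose groups `GL_2` are iterated extensions of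
`GL_2(A_0)` with abelian kernels.
-/

set_option autoImplicit false

namespace Pool.Agent.Results.MP_9d1ffa_al.LinearGroupsOfDegreeTwo

open WithZero Matrix
open Pool.Agent.Y110.FJ (ClosedE)

theorem result (C : ∀ (G : Type) [Group G], Prop) (hC : ClosedE C) :
    (∀ (R : Type) [CommRing R] [IsDomain R], C (GL (Fin 2) R) →
      ∀ X : Type, C (GL (Fin 2) (MvPolynomial X R))) ∧
    ((∀ (G : Type) [Group G], derivedSeries G 2 = ⊥ → C G) →
      ∀ (A : Type) [CommRing A] [IsDomain A] (𝒜 : ℕ → AddSubgroup A) [GradedRing 𝒜],
        C (GL (Fin 2) (𝒜 0)) → C (GL (Fin 2) A)) ∧
    (∀ (K : Type) [Field K] (v : Valuation K ℤᵐ⁰), (∃ π : K, v π = exp (-1 : ℤ)) →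
      ∀ (H : Type) [Group H] (ρ : H →* GL (Fin 2) K),
        (∀ h, v (ρ h : Matrix (Fin 2) (Fin 2) K).det = 1) →
        (∀ n : ℤ, ∃ (P : Type) (_ : Group P) (f : H →* P), C P ∧
          ∀ h : H, (∀ i j, v ((ρ h : Matrix (Fin 2) (Fin 2) K) i j) ≤ exp n) → f h = 1 → h = 1) →
        C H) :=
  ⟨fun R _ _ h X => Pool.Agent.T2h61.GT.mvpoly hC R h X,
    fun hM A _ _ 𝒜 _ h0 => Pool.Agent.T2h61.GT.graded 𝒜 hC hM h0,
    fun _ _ _ hπ _ _ ρ hdet hb => Pool.Agent.T2h61.GT.crit hC hπ ρ hdet hb⟩

end Pool.Agent.Results.MP_9d1ffa_al.LinearGroupsOfDegreeTwo
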