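import Pool.Agent.T2h60.SF.Main

/-!
# Semidirect products with a system of supports are Farrell-Jones groups

`C` is any class of groups with the closure properties `ClosedE C`, all of which are known for the
class of the groups that satisfy the Farrell-Jones conjecture (in K-theory and in L-theory, with
coefficients in additive categories and finite wreath products).

The group `Γ` acts on the set `V` and on the group `N`, and `s` is a system of supports: for each
`S ⊆ V` there is an endomorphism `e_S` of `N` such that `e_S e_T = e_{S ∩ T}`, `γ e_S = e_{γ S} γ` for
`γ` in `Γ`, and each element of `N` is fixed by `e_S` for some finite `S`. Let `N_S` be the image of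
`e_S`. Two elements `u`, `v` of `V` are separated if `N` is the amalgamated product of `N_{V - u}` and
`N_{V - v}` over `N_{V - {u, v}}`. A clique is a finite subset of `V` no two elements of which are
separated.

**Theorem.** `N ⋊ Γ` is in `C` if and only if `Γ` is in `C` and, for all cliques `σ` and all elements
`γ` of `Γ` which fix the elements of `σ`, the group `N_σ ⟨γ⟩` generated by `N_σ` and `γ` is in `C`.

There is no condition on the orbits of `Γ` on `V`, and the groups `N_σ` for cliques are arbitrary. So
the Farrell-Jones conjecture for `N ⋊ Γ` is reduced to the groups `N_σ ⟨γ⟩`; if `Γ` acts trivially on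
`N_σ` whenever it fixes `σ`, then to `Γ` and the groups `N_σ`. Some examples:

* Let `N` be the verbal product (the free product modulo the verbal subgroup of the cartesian
  subgroup) of copies of a group `A` indexed by `V`, for any variety of groups, for instance the
  nilpotent or solvable products of Golovin and Moran. Then `N ⋊ Γ` is the verbal wreath product of
  Shmelkin, and it is in `C` if and only if `Γ` and the verbal products of finitely many copies of `A`
  are. For the variety of all groups and of abelian groups these are the free wreath products and
  the restricted wreath products.
* Let `N` be a graph product, `Γ` acting by automorphisms of the graph and by any compatible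
  isomorphisms of the vertex groups, so that elements of `Γ` which fix a vertex may act on the vertex
  group by any automorphisms. The cliques are the finite cliques of the graph.
* Let `N` be an even Artin group of any rank and `Γ` a group of symmetries of the diagram; `e_S` maps
  the generators outside `S` to `1`. The cliques span even Artin groups without labels `∞`.
* Let `N` be the group of the basis-conjugating automorphisms with finite support of the free group
  on `V`, and `Γ` any group of permutations of `V`. Then `N ⋊ Γ` is in `C` if and only if `Γ` and the
  pure symmetric automorphism groups of the finitely generated free groups are.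

Outline of the proof. For a finite `W ⊆ V` and `γ` fixing its elements, `N_W ⟨γ⟩` is an amalgamated
product of `N_{W - u} ⟨γ⟩` and `N_{W - v} ⟨γ⟩` if `u`, `v` are separated, and it maps to the product of
these two groups, so that it is in `C`. If `F` is the set of the elements of `V` with finite orbits under
`γ`, then `N_F ⟨γ⟩` is in `C` by passing to subgroups of finite index and directed unions. The kernel
of the retraction from `N ⟨γ⟩` to `N_F ⟨γ⟩` consists of elements `x` such that, for each finite `S` and
each element `g` of `N ⟨γ⟩` outside `N`, the elements `e_S (g ^ (-k) x g ^ k)` are trivial for large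
`|k|`. So the conjugation by `g` on finite sets of such elements is realized in wreath products of `N`
with finite cyclic groups, and the realization criterion (`MP_490288_al.RealizationCriterion`) shows
that `N ⟨γ⟩` is in `C`. The extension criterion with infinite cyclic groups does the rest.
-/

set_option autoImplicit false

namespace Pool.Agent.Results.MP_9d1ffa_al.SystemsOfSupports

open Pool.Agent.Y483.PW Pool.Agent.Y110.FJ

theorem result (C : ∀ (G : Type) [Group G], Prop) (hC : ClosedE C)
    {Γ N V : Type} [Group Γ] [Group N] [MulAction Γ V] (s : Sys Γ N V) :
    C (N ⋊[s.φ] Γ) ↔ C Γ ∧ ∀ (σ : s.Cl) (γ : Γ), (∀ v ∈ σ.1, γ • v = v) →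
      C ↥((s.e (σ.1 : Set V)).range.map (SemidirectProduct.inl : N →* N ⋊[s.φ] Γ) ⊔
        Subgroup.zpowers (SemidirectProduct.inr γ)) := by
  constructor
  · intro h
    refine ⟨hC.base.of_injective _ _ (SemidirectProduct.inr : Γ →* N ⋊[s.φ] Γ)
      SemidirectProduct.inr_injective h, fun σ γ _ => ?_⟩
    exact hC.base.of_injective _ _ (Subgroup.subtype _) (Subgroup.subtype_injective _) h
  · rintro ⟨hΓ, h⟩
    refine Pool.Agent.T2h60.SF.t_sys s hC hΓ fun σ γ hγ => ?_
    refine Pool.Agent.T2h60.SF.C_le hC.base ?_ (h σ γ hγ)
    intro w hw
    rw [← SemidirectProduct.inl_left_mul_inr_right w]
    refine Subgroup.mul_mem _ (Subgroup.mem_sup_left ⟨w.left, ⟨w.left, hw.1⟩, rfl⟩) ?_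
    refine Subgroup.mem_sup_right ?_
    obtain ⟨k, hk⟩ := Subgroup.mem_zpowers_iff.1 hw.2
    exact ⟨k, by rw [← hk, map_zpow]⟩

end Pool.Agent.Results.MP_9d1ffa_al.SystemsOfSupports
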