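import Pool.Agent.T2h60.CY.Cyc

/-!
# Groups acting on trees with towers, and the Farrell-Jones conjecture

`C` is any class of groups with the closure properties `ClosedE C` which contains the metabelian groups
and satisfies `AcylF C`: a finitely generated group that acts on a tree without inversions, such that
for some `k` and `n` the pointwise stabilizers of the paths of length at least `k` have at most `n`
elements, is in `C` if the vertex stabilizers are in `C`. All this is known for the class of the groups
whose wreath products with finite groups satisfy the K- and L-theoretic Farrell-Jones conjecture with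
coefficients (`AcylF` is a theorem of Knopf); this class also contains the groups `GL_m(ℚ)` (Rüping).

**Towers** (`Tow`). Let `K` act on a tree with set of vertices `X`. A tower consists of subgroups
`1 = R 0 v ≤ R 1 v ≤ ... ≤ R n v` of the stabilizers `K_v`, permuted by `K`, such that the elements of
`R j v` which fix a neighbour `u` of `v` are in `R j u`, and `K_v / R j v` is in `C`. Write
`R (n + 1) v = K_v`. For each edge `(v, u)` and each `j ≤ n` there is a homomorphism `f` from `K` to a
group in `C`, trivial on all groups `R j w`, such that an element of `K_v ∩ K_u` which is in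
`[S, S] (R j v)` is in `R j v`, where `S` is the intersection of `R (j + 1) v` and the kernel of `f`. For
`j = n` one can require instead that the indices of `R n v` in the groups `K_v ∩ K_u` are bounded.

**The theorem** (`result`). Let `G` act on a tree with vertex stabilizers in `C`, let `r` be an
equivariant family of equivalence relations on the links of the vertices, and suppose that the
intersection of the stabilizers of two edges at a vertex which are not equivalent has at most `m`
elements. The relation `r` generates an equivalence relation on the edges; its classes are the cylinders.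
Suppose that each finitely generated group `H` of elements which preserve a cylinder is contained in a
group with a tower on an `H`-invariant subtree. Then `G` is in `C`.

Some consequences are stated before the theorem.

* `isolated`: Let `G` act on a tree with vertex stabilizers in `C`. Suppose that two edge groups at a
  vertex are infinite and commensurable, or their intersection has at most `n` elements, and that
  elements `x`, `y` of commensurable infinite edge groups at a vertex commute if `x ^ k` and `y` commute
  for some `k ≠ 0`. Suppose that each infinite edge group `E` is abelian, or virtually torsion-free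
  polycyclic (if `C` contains all `GL_m(ℚ)`), or its abstract commensurator is in `C`, and that for each
  vertex `v` of the edge the stabilizer of `v` in the commensurator of `E` satisfies `HQ C`: the
  quotients of its subgroups by abelian normal subgroups are in `C`. Then `G` is in `C`.
* `cyclic`: If the edge groups are infinite cyclic or trivial, and in all vertex groups
  `x ^ k y = y x ^ k`, `k ≠ 0`, implies `x y = y x`, and the vertex groups satisfy `HQ C`, then `G` is in
  `C`.
* `linear`, `solvable`, `extension`, `product`: subgroups of `GL_m(F)`, where `F` is a field with all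
  `GL_k(F)` in `C`, and solvable groups satisfy `HQ C`. Groups with an abelian normal subgroup with
  quotient in `HQ C`, and products of two groups in `HQ C`, are in `HQ C`.

For instance all fundamental groups of graphs of groups with infinite cyclic edge groups whose vertex
groups are torsion-free nilpotent groups or neat arithmetic groups are covered. Here the edge groups can be
in the commutator subgroups of their centralizers (as the centre of the Heisenberg group), which is
excluded in `IsolatedEdgeGroups`, the case of the towers with `n = 0`.

Outline of the proof. Let `N j` be the group generated by all `R j v`. The words in the elements of the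
groups `R j v` along walks show that `N j ∩ K_v = R j v`, and that there is a subtree which meets each
orbit of `N j` in one vertex; so `K / N j` acts on a tree with vertex groups `K_v / R j v` and edge groups
the images of the groups `K_v ∩ K_u`. The theorem of `N509.TK` on edge groups which embed in the first
homology of the vertex groups of the kernel of a homomorphism, applied to the homomorphism to the
product of `K / N (j + 1)` and the target of `f`, shows that `K / N j` is in `C` if `K / N (j + 1)` is in
`C`. For `isolated` one uses the tower with one step which is generated by the elements of the edge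
groups at `v` which are in the kernel of a homomorphism of the commensurator of `E`; it is abelian. For
`linear`: if `A ≤ GL_m(F)` and `N` is an abelian normal subgroup of `A`, then `A` acts by conjugation on
the centralizer algebra of `N`, and the kernel of this representation is abelian and contains `N`.
-/

set_option autoImplicit false

namespace Pool.Agent.Results.MP_9d1ffa_al.TowersOnTrees

open Subgroup
open Subgroup.Commensurable (commensurator)
open Pool.Agent.Y110.FJ (ClosedE)
open Pool.Agent.N509.TK (LR Dt dt lk)
open Pool.Agent.N509.TX (AcylF)
open Pool.Agent.N431.CE (Es)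
open Pool.Agent.T2h60.CY (Tow HQ Ed Cp)

section consequences

variable {C : ∀ (G : Type) [Group G], Prop}

theorem isolated (hC : ClosedE C) (hM : ∀ (G : Type) [Group G], derivedSeries G 2 = ⊥ → C G)
    (hA : AcylF C) {G V : Type} [Group G] [MulAction G V] {T : SimpleGraph V} (hT : T.IsTree)
    (hact : ∀ (g : G) (u v : V), T.Adj u v → T.Adj (g • u) (g • v))
    (hV : ∀ v : V, C ↥(MulAction.stabilizer G v)) (n : ℕ)
    (hint : ∀ v a b, T.Adj v a → T.Adj v b → a ≠ b →
      (Infinite (Es G v a) ∧ Infinite (Es G v b) ∧ Commensurable (Es G v a) (Es G v b)) ∨
      ∀ F : Finset G, (∀ g ∈ F, g ∈ Es G v a ∧ g ∈ Es G v b) → F.card ≤ n)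
    (hcp : ∀ v a b, T.Adj v a → T.Adj v b → Infinite (Es G v a) →
      Commensurable (Es G v a) (Es G v b) → ∀ x ∈ Es G v a, ∀ y ∈ Es G v b, ∀ k : ℕ, k ≠ 0 →
        x ^ k * y = y * x ^ k → x * y = y * x)
    (hQ : ∀ v a, T.Adj v a → Infinite (Es G v a) →
      HQ C ↥(commensurator (Es G v a) ⊓ MulAction.stabilizer G v))
    (hE : ∀ v a, T.Adj v a → Infinite (Es G v a) → Ed C (Es G v a)) : C G :=
  Pool.Agent.T2h60.CY.iso2 hC hM hA hT hact hV n hint hcp hQ hE

theorem cyclic (hC : ClosedE C) (hM : ∀ (G : Type) [Group G], derivedSeries G 2 = ⊥ → C G)
    (hA : AcylF C) {G V : Type} [Group G] [MulAction G V] {T : SimpleGraph V} (hT : T.IsTree)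
    (hact : ∀ (g : G) (u v : V), T.Adj u v → T.Adj (g • u) (g • v))
    (hV : ∀ v : V, Cp ↥(MulAction.stabilizer G v) ∧ HQ C ↥(MulAction.stabilizer G v))
    (hE : ∀ v a, T.Adj v a → ∃ g : G, Es G v a = Subgroup.zpowers g ∧
      ∀ k : ℕ, k ≠ 0 → g ^ k = 1 → g = 1) : C G :=
  Pool.Agent.T2h60.CY.cyc hC hM hA hT hact hV hE

theorem linear (hC : ClosedE C) (hM : ∀ (G : Type) [Group G], derivedSeries G 2 = ⊥ → C G)
    {F : Type} [Field F] (hF : ∀ k : ℕ, C (Matrix.GeneralLinearGroup (Fin k) F))
    {H : Type} [Group H] {m : ℕ} (ρ : H →* Matrix.GeneralLinearGroup (Fin m) F)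
    (hρ : Function.Injective ρ) : HQ C H :=
  HQ.lin hC hM hF ρ hρ

theorem solvable (hC : ClosedE C) (hM : ∀ (G : Type) [Group G], derivedSeries G 2 = ⊥ → C G)
    {H : Type} [Group H] (n : ℕ) (h : derivedSeries H n = ⊥) : HQ C H :=
  HQ.solv hC hM n H h

theorem extension (hC : ClosedE C) (hM : ∀ (G : Type) [Group G], derivedSeries G 2 = ⊥ → C G)
    {H H' : Type} [Group H] [Group H'] (p : H →* H')
    (hp : ∀ x y, p x = 1 → p y = 1 → x * y = y * x) (h : HQ C H') : HQ C H :=
  h.ab hC hM p hp

theorem product (hC : ClosedE C) (hM : ∀ (G : Type) [Group G], derivedSeries G 2 = ⊥ → C G)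
    {H H' : Type} [Group H] [Group H'] (h : HQ C H) (h' : HQ C H') : HQ C (H × H') :=
  h.prod hC hM h'

end consequences

theorem result (C : ∀ (G : Type) [Group G], Prop) (hC : ClosedE C)
    (hM : ∀ (G : Type) [Group G], derivedSeries G 2 = ⊥ → C G) (hA : AcylF C)
    {G V : Type} [Group G] [MulAction G V] (T : SimpleGraph V) (hT : T.IsTree)
    (hact : ∀ (g : G) (u v : V), T.Adj u v → T.Adj (g • u) (g • v))
    (hV : ∀ v : V, C ↥(MulAction.stabilizer G v))
    (r : V → V → V → Prop) (hr : LR G T r) (m : ℕ)
    (hint : ∀ w a b, T.Adj w a → T.Adj w b → ¬ r w a b →
      ∀ F : Finset G, (∀ g ∈ F, g • w = w ∧ g • a = a ∧ g • b = b) → F.card ≤ m)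
    (hY : ∀ v a (h : T.Adj v a) (H : Subgroup G), H.FG →
      (∀ g ∈ H, Relation.EqvGen (lk T r) (dt h) (dt (hact g v a h))) →
      ∃ (K : Subgroup G) (X : Set V) (n : ℕ) (R : ℕ → V → Subgroup G),
        H ≤ K ∧ X.Nonempty ∧
        (∀ v ∈ X, ∀ u ∈ X, ∀ p : T.Walk v u, p.IsPath → ∀ z ∈ p.support, z ∈ X) ∧
        (∀ g ∈ H, ∀ v ∈ X, g • v ∈ X) ∧ Tow C T K X n R) : C G :=
  Pool.Agent.T2h60.CY.cylT hC hM hA hT hact r hr m hint hV hY

end Pool.Agent.Results.MP_9d1ffa_al.TowersOnTrees
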